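import Mathlib

namespace Pool.Agent.Lib.MP_0fcb7f_al

open Equiv

/-- `f` is affine with positive slope on the progression through `u` and `u'`. -/
def Lin (f : Perm ℤ) (u u' : ℤ) : Prop :=
  (∀ j : ℤ, f (u + j * (u' - u)) = f u + j * (f u' - f u)) ∧
    (u < u' → f u < f u') ∧ (u' < u → f u' < f u)

theorem Lin.comp {f g : Perm ℤ} {u u' : ℤ} (hf : Lin f u u') (hg : Lin g (f u) (f u')) :
    Lin (g * f) u u' := by
  refine ⟨fun j => ?_, fun h => hg.2.1 (hf.2.1 h), fun h => hg.2.2 (hf.2.2 h)⟩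
  simp only [Perm.mul_apply]
  rw [hf.1 j, hg.1 j]

theorem iter_aux (f : Perm ℤ) (z g m n : ℤ) (hcop : IsCoprime m n)
    (h : ∀ j : ℤ, f (z + g * (m * j)) = z + g * (m + n * j)) (N : ℕ) :
    ∃ c d : ℤ, ∀ j : ℤ, (f ^ N) (z + g * (c + m ^ N * j)) = z + g * (d + n ^ N * j) := by
  induction N with
  | zero => exact ⟨0, 0, fun j => by simp⟩
  | succ N ih =>
    obtain ⟨c, d, hcd⟩ := ih
    have hc : IsCoprime m (n ^ N) := hcop.pow_right
    obtain ⟨a, b, hab⟩ := hc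
    refine ⟨c + m ^ N * (-d * b), m + n * (d * a), fun j => ?_⟩
    have h1 : c + m ^ N * (-d * b) + m ^ (N + 1) * j = c + m ^ N * (-d * b + m * j) := by ring
    have h2 : d + n ^ N * (-d * b + m * j) = m * (d * a + n ^ N * j) := by
      linear_combination (-d) * hab
    rw [pow_succ', Perm.mul_apply, h1, hcd, h2, h]
    ring

theorem iter_one (f : Perm ℤ) (z g : ℤ) (h : ∀ j : ℤ, f (z + g * j) = z + g * (1 + j)) (N : ℕ) :
    (f ^ N) z = z + g * N := by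
  induction N with
  | zero => simp
  | succ N ih => rw [pow_succ', Perm.mul_apply, ih, h]; push_cast; ring

theorem Lin.fix {f : Perm ℤ} {z : ℤ} (hf : Lin f z (f z)) {N : ℕ} (hN : 0 < N) (h1 : f ^ N = 1) :
    f z = z := by
  by_contra hne
  set D : ℤ := f z - z with hD
  set D' : ℤ := f (f z) - f z with hD'
  have hD0 : D ≠ 0 := sub_ne_zero.mpr hne
  have hpos : 0 < D * D' := by
    rcases lt_or_gt_of_ne hD0 with h | h
    · have := hf.2.2 (by omega)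
      exact mul_pos_of_neg_of_neg h (by omega)
    · have := hf.2.1 (by omega)
      exact mul_pos h (by omega)
  have hg0 : 0 < Int.gcd D D' := Int.gcd_pos_of_ne_zero_left _ hD0
  obtain ⟨m, n, hcop, hm, hn⟩ := Int.exists_gcd_one hg0
  set g : ℤ := (Int.gcd D D' : ℤ) with hg
  have hgpos : 0 < g := by rw [hg]; exact_mod_cast hg0
  have hcop' : IsCoprime m n := Int.isCoprime_iff_gcd_eq_one.mpr hcop
  have hmn : 0 < m * n := by
    have : D * D' = (m * n) * (g * g) := by rw [hm, hn]; ring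
    rw [this] at hpos
    exact (mul_pos_iff_of_pos_right (mul_pos hgpos hgpos)).mp hpos
  have key : ∀ j : ℤ, f (z + g * (m * j)) = z + g * (m + n * j) := by
    intro j
    have := hf.1 j
    rw [← hD, ← hD'] at this
    have e1 : z + g * (m * j) = z + j * D := by rw [hm]; ring
    rw [e1, this]
    have e2 : f z = z + D := by rw [hD]; ring
    rw [e2, hm, hn]; ring
  obtain ⟨c, d, hcd⟩ := iter_aux f z g m n hcop' key N
  rw [h1] at hcd
  have h0 := hcd 0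
  have h1' := hcd 1
  simp only [Perm.one_apply] at h0 h1'
  have hpow : m ^ N = n ^ N := by
    have : g * (m ^ N - n ^ N) = 0 := by linear_combination h1' - h0
    rcases mul_eq_zero.mp this with h | h
    · omega
    · omega
  have habs : |m| = |n| := by
    have : |m| ^ N = |n| ^ N := by rw [← abs_pow, ← abs_pow, hpow]
    exact (pow_left_inj₀ (abs_nonneg _) (abs_nonneg _) hN.ne').mp this
  have hmeq : m = n := by
    rcases abs_eq_abs.mp habs with h | h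
    · exact h
    · rw [h] at hmn; nlinarith [sq_nonneg n]
  subst hmeq
  have hu : IsUnit m := isCoprime_self.mp hcop'
  have hm2 : m * m = 1 := by
    rcases Int.isUnit_iff.mp hu with h | h <;> rw [h] <;> norm_num
  have key2 : ∀ j : ℤ, f (z + (g * m) * j) = z + (g * m) * (1 + j) := by
    intro j
    have := key j
    rw [mul_assoc, this]; ring
  have := iter_one f z (g * m) key2 N
  rw [h1] at this
  simp only [Perm.one_apply] at this
  have h3 : g * m * N = 0 := by linarith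
  have hm0 : m ≠ 0 := by rintro rfl; simp at hm2
  have : (N : ℤ) ≠ 0 := by exact_mod_cast hN.ne'
  exact absurd h3 (mul_ne_zero (mul_ne_zero hgpos.ne' hm0) this)

theorem dvd_of_sq_dvd {g p e c : ℤ} (hg : 0 < g) (he : e = 1 ∨ e = -1)
    (h : g ^ 2 ∣ p * (e * p + g * c)) : g ∣ p := by
  have hd0 : 0 < Int.gcd p g := Int.gcd_pos_of_ne_zero_right _ hg.ne'
  obtain ⟨p', g', hcop, hp, hg'⟩ := Int.exists_gcd_one hd0
  set d : ℤ := (Int.gcd p g : ℤ) with hd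
  have hdpos : 0 < d := by rw [hd]; exact_mod_cast hd0
  have hcop' : IsCoprime p' g' := Int.isCoprime_iff_gcd_eq_one.mpr hcop
  have h2 : g' ^ 2 ∣ p' * (e * p' + g' * c) := by
    have e1 : g ^ 2 = g' ^ 2 * d ^ 2 := by rw [hg']; ring
    have e2 : p * (e * p + g * c) = (p' * (e * p' + g' * c)) * d ^ 2 := by
      rw [hp, hg']; ring
    rw [e1, e2] at h
    exact (mul_dvd_mul_iff_right (pow_ne_zero 2 hdpos.ne')).mp h
  have h3 : g' ∣ p' * (e * p' + g' * c) := (dvd_pow_self g' two_ne_zero).trans h2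
  have h4 : g' ∣ e * p' + g' * c := hcop'.symm.dvd_of_dvd_mul_left h3
  have h5 : g' ∣ e * p' := (dvd_add_left (dvd_mul_right g' c)).mp h4
  have h6 : g' ∣ p' := by
    rcases he with rfl | rfl
    · simpa using h5
    · simpa using h5
  rw [hp, hg']
  exact mul_dvd_mul_right h6 d

/-- Abstract interface of a class transposition. -/
structure Sides (σ : Perm ℤ) (S : Bool → ℤ → Prop) (g t : ℤ) : Prop where
  invol : σ * σ = 1
  mv : ∀ x, σ x ≠ x → ∃ b, S b x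
  sw : ∀ b x, S b x → S (!b) (σ x)
  lin : ∀ b u u', S b u → S b u' → Lin σ u u'
  aff : ∀ c u v, S true c → S true u → S true v → (σ c - σ u) * (c - v) = (σ c - σ v) * (c - u)
  gpos : 0 < g
  same : ∀ b u u', S b u → S b u' → g ∣ u - u'
  diff : ∀ u v, S true u → S false v → g ∣ u - v - t
  ndvd : ¬ g ∣ t

theorem exists_sides (σ : Perm ℤ) (r₁ m₁ r₂ m₂ : ℤ) (hm₁ : 0 < m₁) (hm₂ : 0 < m₂)
    (disj : ∀ k l : ℤ, r₁ + k * m₁ ≠ r₂ + l * m₂)
    (fwd : ∀ k : ℤ, σ (r₁ + k * m₁) = r₂ + k * m₂)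
    (bwd : ∀ k : ℤ, σ (r₂ + k * m₂) = r₁ + k * m₁)
    (fix : ∀ x : ℤ, (∀ k : ℤ, x ≠ r₁ + k * m₁) → (∀ k : ℤ, x ≠ r₂ + k * m₂) → σ x = x) :
    ∃ S g t, Sides σ S g t := by
  have hg0 : 0 < Int.gcd m₁ m₂ := Int.gcd_pos_of_ne_zero_left _ hm₁.ne'
  have hd1 : (Int.gcd m₁ m₂ : ℤ) ∣ m₁ := Int.gcd_dvd_left _ _
  have hd2 : (Int.gcd m₁ m₂ : ℤ) ∣ m₂ := Int.gcd_dvd_right _ _
  refine ⟨fun b x => if b then ∃ k : ℤ, x = r₁ + k * m₁ else ∃ k : ℤ, x = r₂ + k * m₂,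
    Int.gcd m₁ m₂, r₁ - r₂, ?_, ?_, ?_, ?_, ?_, ?_, ?_, ?_, ?_⟩
  · ext x
    simp only [Perm.mul_apply, Perm.one_apply]
    by_cases h1 : ∃ k : ℤ, x = r₁ + k * m₁
    · obtain ⟨k, rfl⟩ := h1; rw [fwd, bwd]
    · by_cases h2 : ∃ k : ℤ, x = r₂ + k * m₂
      · obtain ⟨k, rfl⟩ := h2; rw [bwd, fwd]
      · push Not at h1 h2
        rw [fix x h1 h2, fix x h1 h2]
  · intro x hx
    by_contra hcon
    push Not at hcon
    have h1 := hcon true
    have h2 := hcon false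
    simp only [if_true, not_exists, Bool.false_eq_true, if_false] at h1 h2
    exact hx (fix x h1 h2)
  · intro b x hx
    cases b
    · simp only [Bool.false_eq_true, if_false] at hx
      obtain ⟨k, rfl⟩ := hx
      simp only [Bool.not_false, if_true]
      exact ⟨k, bwd k⟩
    · simp only [if_true] at hx
      obtain ⟨k, rfl⟩ := hx
      simp only [Bool.not_true, Bool.false_eq_true, if_false]
      exact ⟨k, fwd k⟩
  · intro b u u' hu hu'
    cases b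
    · simp only [Bool.false_eq_true, if_false] at hu hu'
      obtain ⟨k, rfl⟩ := hu
      obtain ⟨k', rfl⟩ := hu'
      refine ⟨fun j => ?_, fun h => ?_, fun h => ?_⟩
      · have : r₂ + k * m₂ + j * (r₂ + k' * m₂ - (r₂ + k * m₂)) = r₂ + (k + j * (k' - k)) * m₂ := by
          ring
        rw [this, bwd, bwd, bwd]; ring
      · rw [bwd, bwd]
        have : k < k' := by nlinarith
        nlinarith
      · rw [bwd, bwd]
        have : k' < k := by nlinarith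
        nlinarith
    · simp only [if_true] at hu hu'
      obtain ⟨k, rfl⟩ := hu
      obtain ⟨k', rfl⟩ := hu'
      refine ⟨fun j => ?_, fun h => ?_, fun h => ?_⟩
      · have : r₁ + k * m₁ + j * (r₁ + k' * m₁ - (r₁ + k * m₁)) = r₁ + (k + j * (k' - k)) * m₁ := by
          ring
        rw [this, fwd, fwd, fwd]; ring
      · rw [fwd, fwd]
        have : k < k' := by nlinarith
        nlinarith
      · rw [fwd, fwd]
        have : k' < k := by nlinarith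
        nlinarith
  · intro c u v hc hu hv
    simp only [if_true] at hc hu hv
    obtain ⟨k, rfl⟩ := hc
    obtain ⟨k', rfl⟩ := hu
    obtain ⟨k'', rfl⟩ := hv
    rw [fwd, fwd, fwd]; ring
  · exact_mod_cast hg0
  · intro b u u' hu hu'
    cases b
    · simp only [Bool.false_eq_true, if_false] at hu hu'
      obtain ⟨k, rfl⟩ := hu
      obtain ⟨k', rfl⟩ := hu'
      have : r₂ + k * m₂ - (r₂ + k' * m₂) = (k - k') * m₂ := by ring
      rw [this]; exact Dvd.dvd.mul_left hd2 _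
    · simp only [if_true] at hu hu'
      obtain ⟨k, rfl⟩ := hu
      obtain ⟨k', rfl⟩ := hu'
      have : r₁ + k * m₁ - (r₁ + k' * m₁) = (k - k') * m₁ := by ring
      rw [this]; exact Dvd.dvd.mul_left hd1 _
  · intro u v hu hv
    simp only [if_true, Bool.false_eq_true, if_false] at hu hv
    obtain ⟨k, rfl⟩ := hu
    obtain ⟨k', rfl⟩ := hv
    have : r₁ + k * m₁ - (r₂ + k' * m₂) - (r₁ - r₂) = k * m₁ - k' * m₂ := by ring
    rw [this]
    exact dvd_sub (Dvd.dvd.mul_left hd1 _) (Dvd.dvd.mul_left hd2 _)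
  · rintro ⟨e, he⟩
    have hb := Int.gcd_eq_gcd_ab m₁ m₂
    apply disj (-(e * Int.gcdA m₁ m₂)) (e * Int.gcdB m₁ m₂)
    rw [hb] at he
    linear_combination he

section two

variable {σ σ' : Perm ℤ} {S S' : Bool → ℤ → Prop} {g t g' t' : ℤ}

theorem Sides.diff' (h : Sides σ S g t) (b : Bool) (u v : ℤ) (hu : S b u) (hv : S (!b) v) :
    ∃ e : ℤ, (e = 1 ∨ e = -1) ∧ g ∣ u - v - e * t := by
  cases b
  · refine ⟨-1, Or.inr rfl, ?_⟩
    have := h.diff v u hv hu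
    have e : u - v - -1 * t = -(v - u - t) := by ring
    rw [e]; exact (dvd_neg).mpr this
  · exact ⟨1, Or.inl rfl, by simpa using h.diff u v hu hv⟩

theorem noL (h : Sides σ S g t) (h' : Sides σ' S' g' t') {c u v : ℤ} {X Y : Bool}
    (hc : S' true c) (hu : S' true u) (hv : S' true v)
    (h1 : S X c) (h2 : S X u) (h3 : S (!X) v)
    (h4 : S Y (σ' c)) (h5 : S Y (σ' v)) (h6 : S (!Y) (σ' u)) : False := by
  have e := h'.aff c u v hc hu hv
  obtain ⟨a, ha⟩ := h.same _ _ _ h1 h2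
  obtain ⟨b, hb⟩ := h.same _ _ _ h4 h5
  obtain ⟨e1, he1, a1, ha1⟩ := h.diff' _ _ _ h1 h3
  obtain ⟨e2, he2, a2, ha2⟩ := h.diff' _ _ _ h4 h6
  have hp : g ∣ c - v := by
    apply dvd_of_sq_dvd (e := e1 * e2) (c := a2 - e1 * e2 * a1) h.gpos
    · rcases he1 with rfl | rfl <;> rcases he2 with rfl | rfl <;> simp
    · refine ⟨a * b, ?_⟩
      have e11 : e1 * e1 = 1 := by rcases he1 with rfl | rfl <;> simp
      have : e1 * e2 * (c - v) + g * (a2 - e1 * e2 * a1) = σ' c - σ' u := by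
        linear_combination e1 * e2 * ha1 - ha2 + e2 * t * e11
      rw [this, mul_comm, e, ha, hb]; ring
  apply h.ndvd
  have : g ∣ e1 * t := by
    have e3 : e1 * t = (c - v) - g * a1 := by linear_combination -ha1
    rw [e3]; exact dvd_sub hp (dvd_mul_right _ _)
  rcases he1 with rfl | rfl
  · simpa using this
  · simpa using this

theorem step (h' : Sides σ' S' g' t') {z : ℤ} {e x y : Bool} (he : S' e z) (hx : S x z)
    (hy : S y (σ' z)) :
    ∃ w, S' true w ∧ S (if e then x else y) w ∧ S (if e then y else x) (σ' w) := by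
  cases e
  · refine ⟨σ' z, by simpa using h'.sw _ _ he, by simpa using hy, ?_⟩
    have : σ' (σ' z) = z := by
      rw [← Perm.mul_apply, h'.invol]; rfl
    simpa [this] using hx
  · exact ⟨z, he, by simpa using hx, by simpa using hy⟩

theorem three (h : Sides σ S g t) (h' : Sides σ' S' g' t') {a1 b1 a2 b2 a3 b3 : Bool}
    (H1 : ∃ w, S' true w ∧ S a1 w ∧ S b1 (σ' w))
    (H2 : ∃ w, S' true w ∧ S a2 w ∧ S b2 (σ' w))
    (H3 : ∃ w, S' true w ∧ S a3 w ∧ S b3 (σ' w)) :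
    (a1 = a2 ∧ b1 = b2) ∨ (a1 = a3 ∧ b1 = b3) ∨ (a2 = a3 ∧ b2 = b3) := by
  obtain ⟨w1, p1, q1, r1⟩ := H1
  obtain ⟨w2, p2, q2, r2⟩ := H2
  obtain ⟨w3, p3, q3, r3⟩ := H3
  cases a1 <;> cases b1 <;> cases a2 <;> cases b2 <;> cases a3 <;> cases b3 <;>
    first
    | decide
    | exact (noL h h' p1 p2 p3 q1 q2 q3 r1 r3 r2).elim
    | exact (noL h h' p1 p3 p2 q1 q3 q2 r1 r2 r3).elim
    | exact (noL h h' p2 p1 p3 q2 q1 q3 r2 r3 r1).elim
    | exact (noL h h' p2 p3 p1 q2 q3 q1 r2 r1 r3).elim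
    | exact (noL h h' p3 p1 p2 q3 q1 q2 r3 r2 r1).elim
    | exact (noL h h' p3 p2 p1 q3 q2 q1 r3 r1 r2).elim

theorem words : ∀ e0 e1 e2 e3 e4 e5 e6 e7 : Bool,
    (((if e1 then !e0 else e2) = (if e3 then !e2 else e4) ∧
        (if e1 then e2 else !e0) = (if e3 then e4 else !e2)) ∨
      ((if e1 then !e0 else e2) = (if e5 then !e4 else e6) ∧
        (if e1 then e2 else !e0) = (if e5 then e6 else !e4)) ∨
      ((if e3 then !e2 else e4) = (if e5 then !e4 else e6) ∧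
        (if e3 then e4 else !e2) = (if e5 then e6 else !e4))) →
    (((if e2 then !e1 else e3) = (if e4 then !e3 else e5) ∧
        (if e2 then e3 else !e1) = (if e4 then e5 else !e3)) ∨
      ((if e2 then !e1 else e3) = (if e6 then !e5 else e7) ∧
        (if e2 then e3 else !e1) = (if e6 then e7 else !e5)) ∨
      ((if e4 then !e3 else e5) = (if e6 then !e5 else e7) ∧
        (if e4 then e5 else !e3) = (if e6 then e7 else !e5))) →
    (e0 = e2 ∧ e1 = e3) ∨ (e1 = e3 ∧ e2 = e4) ∨ (e2 = e4 ∧ e3 = e5) ∨ (e3 = e5 ∧ e4 = e6) ∨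
      (e4 = e6 ∧ e5 = e7) ∨ (e0 = e4 ∧ e1 = e5 ∧ e2 = e6 ∧ e3 = e7) := by
  intro e0 e1 e2 e3 e4 e5 e6 e7
  cases e0 <;> cases e1 <;> cases e2 <;> cases e3 <;> cases e4 <;> cases e5 <;> cases e6 <;>
    cases e7 <;> decide

theorem pow_swap (h : σ * σ = 1) (h' : σ' * σ' = 1) {N : ℕ} (hN : (σ' * σ) ^ N = 1) :
    (σ * σ') ^ N = 1 := by
  have : σ * σ' = (σ' * σ)⁻¹ := by
    rw [mul_inv_rev, inv_eq_of_mul_eq_one_right h, inv_eq_of_mul_eq_one_right h']
  rw [this, inv_pow, hN, inv_one]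

theorem key8 (h : Sides σ S g t) (h' : Sides σ' S' g' t') {N : ℕ} (hN : 0 < N)
    (h1 : (σ' * σ) ^ N = 1) {z0 z1 z2 z3 z4 z5 z6 z7 z8 : ℤ}
    (s0 : σ z0 = z1) (s1 : σ' z1 = z2) (s2 : σ z2 = z3) (s3 : σ' z3 = z4)
    (s4 : σ z4 = z5) (s5 : σ' z5 = z6) (s6 : σ z6 = z7) (s7 : σ' z7 = z8)
    (n0 : z1 ≠ z0) (n1 : z2 ≠ z1) (n2 : z3 ≠ z2) (n3 : z4 ≠ z3)
    (n4 : z5 ≠ z4) (n5 : z6 ≠ z5) (n6 : z7 ≠ z6) (n7 : z8 ≠ z7) : z4 = z0 := by
  obtain ⟨e0, p0⟩ := h.mv z0 (s0 ▸ n0)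
  obtain ⟨e1, p1⟩ := h'.mv z1 (s1 ▸ n1)
  obtain ⟨e2, p2⟩ := h.mv z2 (s2 ▸ n2)
  obtain ⟨e3, p3⟩ := h'.mv z3 (s3 ▸ n3)
  obtain ⟨e4, p4⟩ := h.mv z4 (s4 ▸ n4)
  obtain ⟨e5, p5⟩ := h'.mv z5 (s5 ▸ n5)
  obtain ⟨e6, p6⟩ := h.mv z6 (s6 ▸ n6)
  obtain ⟨e7, p7⟩ := h'.mv z7 (s7 ▸ n7)
  have q1 : S (!e0) z1 := s0 ▸ h.sw _ _ p0
  have q2 : S' (!e1) z2 := s1 ▸ h'.sw _ _ p1
  have q3 : S (!e2) z3 := s2 ▸ h.sw _ _ p2
  have q4 : S' (!e3) z4 := s3 ▸ h'.sw _ _ p3
  have q5 : S (!e4) z5 := s4 ▸ h.sw _ _ p4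
  have q6 : S' (!e5) z6 := s5 ▸ h'.sw _ _ p5
  have A := three h h' (step h' p1 q1 (s1 ▸ p2)) (step h' p3 q3 (s3 ▸ p4)) (step h' p5 q5 (s5 ▸ p6))
  have B := three h' h (step h p2 q2 (s2 ▸ p3)) (step h p4 q4 (s4 ▸ p5)) (step h p6 q6 (s6 ▸ p7))
  have h2 := pow_swap h.invol h'.invol h1
  have ev : ∀ {a b c d : ℤ} {e f : Bool}, σ a = b → σ' b = c → σ c = d → S e a → S e c →
      S' f b → S' f d → c = a := by
    intro a b c d e f t1 t2 t3 u1 u2 u3 u4
    have l1 := h.lin _ _ _ u1 u2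
    have l2 := h'.lin _ _ _ u3 u4
    rw [← t1, ← t3] at l2
    have l3 := l1.comp l2
    have hc : (σ' * σ) a = c := by rw [Perm.mul_apply, t1, t2]
    rw [← hc] at l3 ⊢
    exact l3.fix hN h1
  have od : ∀ {a b c d : ℤ} {e f : Bool}, σ' a = b → σ b = c → σ' c = d → S' e a → S' e c →
      S f b → S f d → c = a := by
    intro a b c d e f t1 t2 t3 u1 u2 u3 u4
    have l1 := h'.lin _ _ _ u1 u2
    have l2 := h.lin _ _ _ u3 u4
    rw [← t1, ← t3] at l2
    have l3 := l1.comp l2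
    have hc : (σ * σ') a = c := by rw [Perm.mul_apply, t1, t2]
    rw [← hc] at l3 ⊢
    exact l3.fix hN h2
  have i0 : ∀ {a b : ℤ}, σ a = σ b → a = b := fun hab => σ.injective hab
  have i1 : ∀ {a b : ℤ}, σ' a = σ' b → a = b := fun hab => σ'.injective hab
  have d20 : z2 = z0 → z4 = z0 := by
    intro e
    have : z3 = z1 := by rw [← s2, ← s0, e]
    rw [← s3, this, s1, e]
  have d31 : z3 = z1 → z4 = z0 := fun e => d20 (i0 (by rw [s2, s0, e]))
  have d42 : z4 = z2 → z4 = z0 := fun e => d31 (i1 (by rw [s3, s1, e]))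
  have d53 : z5 = z3 → z4 = z0 := fun e => d42 (i0 (by rw [s4, s2, e]))
  have d64 : z6 = z4 → z4 = z0 := fun e => d53 (i1 (by rw [s5, s3, e]))
  rcases words e0 e1 e2 e3 e4 e5 e6 e7 A B with ⟨a, b⟩ | ⟨a, b⟩ | ⟨a, b⟩ | ⟨a, b⟩ | ⟨a, b⟩ |
      ⟨a, b, c, d⟩
  · subst a b; exact d20 (ev s0 s1 s2 p0 p2 p1 p3)
  · subst a b; exact d31 (od s1 s2 s3 p1 p3 p2 p4)
  · subst a b; exact d42 (ev s2 s3 s4 p2 p4 p3 p5)
  · subst a b; exact d53 (od s3 s4 s5 p3 p5 p4 p6)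
  · subst a b; exact d64 (ev s4 s5 s6 p4 p6 p5 p7)
  · subst a b c d
    have l0 := h.lin _ _ _ p0 p4
    have l1 := h'.lin _ _ _ p1 p5
    have l2 := h.lin _ _ _ p2 p6
    have l3 := h'.lin _ _ _ p3 p7
    have m1 : Lin (σ' * σ) z0 z4 := l0.comp (by rw [s0, s4]; exact l1)
    have m2 : Lin (σ' * σ) z2 z6 := l2.comp (by rw [s2, s6]; exact l3)
    have c2 : (σ' * σ) z0 = z2 := by rw [Perm.mul_apply, s0, s1]
    have c4 : (σ' * σ) z2 = z4 := by rw [Perm.mul_apply, s2, s3]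
    have c6 : (σ' * σ) z4 = z6 := by rw [Perm.mul_apply, s4, s5]
    have m3 : Lin ((σ' * σ) * (σ' * σ)) z0 z4 := m1.comp (by rw [c2, c6]; exact m2)
    have c : ((σ' * σ) * (σ' * σ)) z0 = z4 := by rw [Perm.mul_apply, c2, c4]
    rw [← c] at m3 ⊢
    apply m3.fix hN
    rw [← pow_two, ← pow_mul, mul_comm, pow_mul, h1, one_pow]

theorem conj_pow' (h : σ * σ = 1) (h' : σ' * σ' = 1) (j : ℕ) :
    (σ' * σ) ^ j * σ * (σ' * σ) ^ j = σ := by
  induction j with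
  | zero => simp
  | succ j ih =>
    have e : (σ' * σ) * σ * (σ' * σ) = σ := by
      rw [mul_assoc σ' σ σ, h, mul_one, ← mul_assoc, h', one_mul]
    calc (σ' * σ) ^ (j + 1) * σ * (σ' * σ) ^ (j + 1)
        = (σ' * σ) ^ j * ((σ' * σ) * σ * (σ' * σ)) * (σ' * σ) ^ j := by
          nth_rewrite 1 [pow_succ]
          rw [pow_succ' (σ' * σ) j]; simp only [mul_assoc]
      _ = σ := by rw [e, ih]

theorem even_step (h : σ * σ = 1) (h' : σ' * σ' = 1) (j : ℕ) (z : ℤ) :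
    σ (((σ' * σ) ^ j) z) = ((σ' * σ) ^ j) z ↔ ((σ' * σ) ^ (2 * j)) z = σ z := by
  have e := congrArg (fun f : Perm ℤ => f z) (conj_pow' h h' j)
  simp only [Perm.mul_apply] at e
  rw [← e, two_mul, pow_add, Perm.mul_apply]
  constructor
  · intro hh; rw [hh]
  · intro hh; exact (((σ' * σ) ^ j).injective hh).symm

theorem odd_step (h : σ * σ = 1) (h' : σ' * σ' = 1) (j : ℕ) (z : ℤ) :
    ((σ' * σ) ^ (j + 1)) z = σ (((σ' * σ) ^ j) z) ↔ ((σ' * σ) ^ (2 * j + 1)) z = σ z := by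
  have e := congrArg (fun f : Perm ℤ => f z) (conj_pow' h h' j)
  simp only [Perm.mul_apply] at e
  rw [← e, two_mul, add_assoc, pow_add (σ' * σ) j (j + 1), Perm.mul_apply]
  constructor
  · intro hh; rw [hh]
  · intro hh; exact ((σ' * σ) ^ j).injective hh

theorem key (h : Sides σ S g t) (h' : Sides σ' S' g' t') {N : ℕ} (hN : 0 < N)
    (h1 : (σ' * σ) ^ N = 1) (z : ℤ) (hz : ∀ i < 8, ((σ' * σ) ^ i) z ≠ σ z) :
    ((σ' * σ) ^ 2) z = z := by
  have st : ∀ j : ℕ, σ' (σ (((σ' * σ) ^ j) z)) = ((σ' * σ) ^ (j + 1)) z := by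
    intro j; rw [pow_succ']; rfl
  have ne : ∀ j < 4, σ (((σ' * σ) ^ j) z) ≠ ((σ' * σ) ^ j) z := fun j hj hh =>
    hz (2 * j) (by omega) ((even_step h.invol h'.invol j z).mp hh)
  have no : ∀ j < 4, ((σ' * σ) ^ (j + 1)) z ≠ σ (((σ' * σ) ^ j) z) := fun j hj hh =>
    hz (2 * j + 1) (by omega) ((odd_step h.invol h'.invol j z).mp hh)
  have := key8 h h' hN h1 (z0 := ((σ' * σ) ^ 0) z) rfl (st 0) rfl (st 1) rfl (st 2) rfl (st 3)
    (ne 0 (by omega)) (no 0 (by omega)) (ne 1 (by omega)) (no 1 (by omega))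
    (ne 2 (by omega)) (no 2 (by omega)) (ne 3 (by omega)) (no 3 (by omega))
  simpa using this

theorem pow_fix_of_dvd {f : Perm ℤ} {z : ℤ} {a b : ℕ} (h : (f ^ a) z = z) (hab : a ∣ b) :
    (f ^ b) z = z := by
  obtain ⟨c, rfl⟩ := hab
  rw [pow_mul]
  exact Perm.pow_apply_eq_self_of_apply_eq_self h c

theorem lemA (h : Sides σ S g t) (h' : Sides σ' S' g' t') {N : ℕ} (hN : 0 < N)
    (h1 : (σ' * σ) ^ N = 1) (z : ℤ) (hz : σ' z = z) : ((σ' * σ) ^ 840) z = z := by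
  by_cases hh : ∀ i < 8, ((σ' * σ) ^ i) z ≠ σ z
  · exact pow_fix_of_dvd (key h h' hN h1 z hh) (by norm_num)
  · push Not at hh
    obtain ⟨i, hi, e⟩ := hh
    have : ((σ' * σ) ^ (i + 1)) z = z := by
      rw [pow_succ', Perm.mul_apply, e, Perm.mul_apply, ← Perm.mul_apply σ σ z, h.invol]
      exact hz
    apply pow_fix_of_dvd this
    interval_cases i <;> norm_num

theorem fix_of_pow {f : Perm ℤ} {z : ℤ} {j n : ℕ} (h : (f ^ n) ((f ^ j) z) = (f ^ j) z) :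
    (f ^ n) z = z := by
  apply (f ^ j).injective
  rw [← Perm.mul_apply, ← pow_add, add_comm, pow_add, Perm.mul_apply, h]

theorem lemB (h : Sides σ S g t) (h' : Sides σ' S' g' t') {N : ℕ} (hN : 0 < N)
    (h1 : (σ' * σ) ^ N = 1) : (σ' * σ) ^ 840 = 1 := by
  ext z
  rw [Perm.one_apply]
  by_cases hh : ∀ i < 8, ((σ' * σ) ^ i) z ≠ σ z
  · exact pow_fix_of_dvd (key h h' hN h1 z hh) (by norm_num)
  · push Not at hh
    obtain ⟨i, -, e⟩ := hh
    rcases Nat.even_or_odd' i with ⟨j, rfl | rfl⟩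
    · have e1 := (even_step h.invol h'.invol j z).mpr e
      have e2 := lemA h' h hN (pow_swap h.invol h'.invol h1) _ e1
      have e3 : σ * σ' = (σ' * σ)⁻¹ := by
        rw [mul_inv_rev, inv_eq_of_mul_eq_one_right h.invol, inv_eq_of_mul_eq_one_right h'.invol]
      rw [e3, inv_pow, Perm.inv_eq_iff_eq] at e2
      exact fix_of_pow e2.symm
    · have e1 := (odd_step h.invol h'.invol j z).mpr e
      have e2 : σ' (((σ' * σ) ^ (j + 1)) z) = ((σ' * σ) ^ (j + 1)) z := by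
        conv_lhs => rw [e1]
        rw [pow_succ']; rfl
      exact fix_of_pow (lemA h h' hN h1 _ e2)

end two

end Pool.Agent.Lib.MP_0fcb7f_al
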